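import Pool.Agent.Helper2.Gap.Main

/-!
# A uniform growth gap for groups with locally finite derived subgroup

Let `S` be a nonempty finite subset of a group such that every finite subset of the derived
subgroup of `⟨S⟩` generates a finite group (for solvable `⟨S⟩`, of any derived length, this says
that the derived subgroup is a torsion group). Then the limit `ρ` of `log |S ^ n| / n` exists, and
either `ρ = 0` and the center of `⟨S⟩` has finite index in `⟨S⟩`, or `ρ ≥ (log 2) / 3`.
-/

namespace Pool.Agent.Helper2.Old.LocallyFiniteDerived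

open Pointwise Filter Topology

theorem result {Γ : Type*} [Group Γ] [DecidableEq Γ] (S : Finset Γ) (hS : S.Nonempty)
    (hlf : ∀ T : Finset Γ,
      (T : Set Γ) ⊆ (⁅Subgroup.closure (S : Set Γ), Subgroup.closure (S : Set Γ)⁆ : Subgroup Γ) →
      Finite (Subgroup.closure (T : Set Γ))) :
    ∃ ρ : ℝ, Tendsto (fun n : ℕ => Real.log ((S ^ n).card : ℝ) / n) atTop (𝓝 ρ) ∧
      ((ρ = 0 ∧ (Subgroup.center (Subgroup.closure (S : Set Γ))).FiniteIndex) ∨
        Real.log 2 / 3 ≤ ρ) := by
  apply Pool.Agent.Helper2.Gap.main S hS
  intro T hT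
  apply hlf T
  intro t ht
  have := hT t ht
  rw [Subgroup.map_subtype_commutator] at this
  exact this

end Pool.Agent.Helper2.Old.LocallyFiniteDerived
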